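import Pool.Agent.H633R2.Ctr.AlgFpt

set_option autoImplicit false

/-!
# The branching algorithm on lists
-/

namespace Pool.Agent.T2h18.DC

open Pool.Agent.H633R2 Pool.Agent.H633R2.Ctr

/-- The vertices which are not deleted. -/
def av (M : List (List Bool)) (S : List Bool) : List ℕ :=
  (List.range M.length).filter (fun x => !(S.getD x false))

/-- The component of `r`. -/
def co (M : List (List Bool)) (R : List ℕ) (r : ℕ) : List ℕ := bal false M R M.length [r]

/-- `Z` dominates `y`. -/
def dmb (M : List (List Bool)) (Z : List ℕ) (y : ℕ) : Bool :=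
  Z.any (fun z => decide (y = z) || adj false M z y)

/-- The number of dominated vertices. -/
def nd (M : List (List Bool)) (H Z : List ℕ) : ℕ := (H.filter (fun y => dmb M Z y)).length

/-- The tuple which dominates most vertices. -/
def bz (d : ℕ) (M : List (List Bool)) (H : List ℕ) : List ℕ :=
  ((tuples d H).filter (fun Z => (tuples d H).all (fun Z' =>
    decide (nd M H Z' ≤ nd M H Z)))).getD 0 []

/-- The vertices which are not dominated. -/
def un (M : List (List Bool)) (H Z : List ℕ) : List ℕ := H.filter (fun y => !(dmb M Z y))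

/-- The vertices of the component of `r` which are not dominated. -/
def unr (d : ℕ) (M : List (List Bool)) (R : List ℕ) (r : ℕ) : List ℕ :=
  un M (co M R r) (bz d M (co M R r))

/-- The test for walks. -/
def isW (m : ℕ) (M : List (List Bool)) (R : List ℕ) (r x : ℕ) (t : List ℕ) : Bool :=
  decide (t.getD 0 0 = r) && (decide (t.getD m 0 = x) && (List.range m).all (fun i =>
    decide (t.getD (i + 1) 0 ∈ R) && (decide (t.getD (i + 1) 0 = t.getD i 0) ||
      adj false M (t.getD i 0) (t.getD (i + 1) 0))))

/-- A walk of `m` steps from `r` to `x`. -/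
def wk (m : ℕ) (M : List (List Bool)) (R : List ℕ) (r x : ℕ) : List ℕ :=
  ((tuples (m + 1) R).filter (fun t => isW m M R r x t)).getD 0 []

/-- The vertices at distance `3 d`. -/
def far (d : ℕ) (M : List (List Bool)) (R : List ℕ) (r : ℕ) : List ℕ :=
  (bal false M R (3 * d) [r]).filter (fun x => !(decide (x ∈ bal false M R (3 * d - 1) [r])))

/-- The targets of the walks. -/
def tg (d : ℕ) (M : List (List Bool)) (R : List ℕ) (k r : ℕ) : List ℕ :=
  bz d M (co M R r) ++ ((unr d M R r).take (k + 1) ++ (far d M R r).take 1)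

/-- The vertices on which we branch. -/
def brl (d : ℕ) (M : List (List Bool)) (R : List ℕ) (k r : ℕ) : List ℕ :=
  r :: (tg d M R k r).flatMap (fun x => wk (3 * d) M R r x)

/-- Delete the vertices in `L`. -/
def mk (M : List (List Bool)) (S : List Bool) (L : List ℕ) : List Bool :=
  (List.range M.length).map (fun x => S.getD x false || decide (x ∈ L))

/-- The vertices in bad components. -/
def bad (d : ℕ) (M : List (List Bool)) (S : List Bool) : List ℕ :=
  (av M S).filter (fun r => decide (0 < (unr d M (av M S) r).length))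

/-- The branches. -/
def nst (d : ℕ) (M : List (List Bool)) (k : ℕ) (S : List Bool) : List (List Bool) :=
  bif decide ((bad d M S).length = 0) then [S] else
    mk M S (unr d M (av M S) ((bad d M S).getD 0 0)) ::
      (brl d M (av M S) k ((bad d M S).getD 0 0)).map (fun b => mk M S [b])

/-- One step of the algorithm. -/
def est (d : ℕ) (M : List (List Bool)) (k cap : ℕ) (E : List (List Bool)) : List (List Bool) :=
  (E.flatMap (fun S => nst d M k S)).take cap

/-- The number of deleted vertices. -/
def cnt (M : List (List Bool)) (S : List Bool) : ℕ :=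
  ((List.range M.length).filter (fun x => S.getD x false)).length

/-- The solutions among the candidates. -/
def fin (d : ℕ) (M : List (List Bool)) (k : ℕ) (E : List (List Bool)) : List (List Bool) :=
  E.filter (fun S => decide ((bad d M S).length = 0) && decide (cnt M S ≤ k))

/-- The algorithm. -/
def alg (d : ℕ) (M : List (List Bool)) (k cap : ℕ) : Bool × List Bool :=
  (decide (0 < (fin d M k ((est d M k cap)^[k + 1] [[]])).length),
    (fin d M k ((est d M k cap)^[k + 1] [[]])).getD 0 [])

end Pool.Agent.T2h18.DC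

/-! ### Polynomial time -/

namespace Pool.Agent.NPC.DC

open Pool.Agent.NPC Pool.Agent.NPC.H633 Pool.Agent.H633R2 Pool.Agent.H633R2.Ctr Pool.Agent.T2h18.DC

section

variable {α : Type} [TEnc α] {M : α → List (List Bool)} {S : α → List Bool}
  {R H Z t : α → List ℕ} {r x y : α → ℕ} {k : α → ℕ}

theorem poly_av (hM : Poly M) (hS : Poly S) : Poly (fun a => av (M a) (S a)) := by
  unfold av
  exact Poly.filter (p := fun a x => !((S a).getD x false)) (Poly.range_length hM)
    (Poly.not (Poly.getD (hS.comp p1) p2 (Poly.const false)))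

theorem poly_co (hM : Poly M) (hR : Poly R) (hr : Poly r) :
    Poly (fun a => co (M a) (R a) (r a)) := by
  unfold co
  exact poly_bal false hM hR (UPoly.length hM) (Poly.cons hr (Poly.const []))

theorem poly_dmb (hM : Poly M) (hZ : Poly Z) (hy : Poly y) :
    Poly (fun a => dmb (M a) (Z a) (y a)) := by
  unfold dmb
  exact Poly.any (p := fun a z => decide (y a = z) || adj false (M a) z (y a)) hZ
    (Poly.or (Poly.decide_eq (hy.comp p1) p2) (poly_adj false (hM.comp p1) p2 (hy.comp p1)))

theorem poly_nd (hM : Poly M) (hH : Poly H) (hZ : Poly Z) :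
    Poly (fun a => nd (M a) (H a) (Z a)) := by
  unfold nd
  exact Poly.length (Poly.filter (p := fun a y => dmb (M a) (Z a) y) hH
    (poly_dmb (hM.comp p1) (hZ.comp p1) p2))

theorem poly_bz (d : ℕ) (hM : Poly M) (hH : Poly H) : Poly (fun a => bz d (M a) (H a)) := by
  unfold bz
  refine Poly.getD (Poly.filter (p := fun a Z => (tuples d (H a)).all (fun Z' =>
    decide (nd (M a) (H a) Z' ≤ nd (M a) (H a) Z))) (poly_tuples d hH) ?_) (Poly.const 0)
    (Poly.const [])
  refine Poly.all (α := α × List ℕ) (p := fun q Z' =>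
    decide (nd (M q.1) (H q.1) Z' ≤ nd (M q.1) (H q.1) q.2)) (poly_tuples d (hH.comp p1)) ?_
  exact Poly.decide_le (poly_nd (hM.comp (p1.comp p1)) (hH.comp (p1.comp p1)) p2)
    (poly_nd (hM.comp (p1.comp p1)) (hH.comp (p1.comp p1)) (p2.comp p1))

theorem poly_un (hM : Poly M) (hH : Poly H) (hZ : Poly Z) :
    Poly (fun a => un (M a) (H a) (Z a)) := by
  unfold un
  exact Poly.filter (p := fun a y => !(dmb (M a) (Z a) y)) hH
    (Poly.not (poly_dmb (hM.comp p1) (hZ.comp p1) p2))

theorem poly_unr (d : ℕ) (hM : Poly M) (hR : Poly R) (hr : Poly r) :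
    Poly (fun a => unr d (M a) (R a) (r a)) := by
  unfold unr
  exact poly_un hM (poly_co hM hR hr) (poly_bz d hM (poly_co hM hR hr))

theorem poly_isW (m : ℕ) (hM : Poly M) (hR : Poly R) (hr : Poly r) (hx : Poly x)
    (ht : Poly t) : Poly (fun a => isW m (M a) (R a) (r a) (x a) (t a)) := by
  unfold isW
  refine Poly.and (Poly.decide_eq (Poly.getD ht (Poly.const 0) (Poly.const 0)) hr)
    (Poly.and (Poly.decide_eq (Poly.getD ht (Poly.const m) (Poly.const 0)) hx) ?_)
  refine Poly.all (p := fun a i => decide ((t a).getD (i + 1) 0 ∈ R a) &&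
    (decide ((t a).getD (i + 1) 0 = (t a).getD i 0) ||
      adj false (M a) ((t a).getD i 0) ((t a).getD (i + 1) 0))) (Poly.const (List.range m)) ?_
  have h0 : Poly (fun q : α × ℕ => (t q.1).getD q.2 0) :=
    Poly.getD (ht.comp p1) p2 (Poly.const 0)
  have h1 : Poly (fun q : α × ℕ => (t q.1).getD (q.2 + 1) 0) :=
    Poly.getD (ht.comp p1) (Poly.add p2 (Poly.const 1)) (Poly.const 0)
  exact Poly.and (Poly.decide_mem h1 (hR.comp p1)) (Poly.or (Poly.decide_eq h1 h0)
    (poly_adj false (hM.comp p1) h0 h1))

theorem poly_wk (m : ℕ) (hM : Poly M) (hR : Poly R) (hr : Poly r) (hx : Poly x) :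
    Poly (fun a => wk m (M a) (R a) (r a) (x a)) := by
  unfold wk
  exact Poly.getD (Poly.filter (p := fun a t => isW m (M a) (R a) (r a) (x a) t)
    (poly_tuples (m + 1) hR) (poly_isW m (hM.comp p1) (hR.comp p1) (hr.comp p1) (hx.comp p1) p2))
    (Poly.const 0) (Poly.const [])

theorem poly_far (d : ℕ) (hM : Poly M) (hR : Poly R) (hr : Poly r) :
    Poly (fun a => far d (M a) (R a) (r a)) := by
  unfold far
  exact Poly.filter (p := fun a x => !(decide (x ∈ bal false (M a) (R a) (3 * d - 1) [r a])))
    (poly_bal false hM hR (UPoly.const _) (Poly.cons hr (Poly.const [])))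
    (Poly.not (Poly.decide_mem p2 (poly_bal false (hM.comp p1) (hR.comp p1) (UPoly.const _)
      (Poly.cons (hr.comp p1) (Poly.const [])))))

theorem poly_tg (d : ℕ) (hM : Poly M) (hR : Poly R) (hk : UPoly k) (hr : Poly r) :
    Poly (fun a => tg d (M a) (R a) (k a) (r a)) := by
  unfold tg
  exact Poly.append (poly_bz d hM (poly_co hM hR hr)) (Poly.append
    (poly_takeU (poly_unr d hM hR hr) (UPoly.add hk (UPoly.const 1)))
    (poly_takeU (poly_far d hM hR hr) (UPoly.const 1)))

theorem poly_brl (d : ℕ) (hM : Poly M) (hR : Poly R) (hk : UPoly k) (hr : Poly r) :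
    Poly (fun a => brl d (M a) (R a) (k a) (r a)) := by
  unfold brl
  exact Poly.cons hr (Poly.flatMap (F := fun a x => wk (3 * d) (M a) (R a) (r a) x)
    (poly_tg d hM hR hk hr) (poly_wk _ (hM.comp p1) (hR.comp p1) (hr.comp p1) p2))

theorem poly_mk {L : α → List ℕ} (hM : Poly M) (hS : Poly S) (hL : Poly L) :
    Poly (fun a => mk (M a) (S a) (L a)) := by
  unfold mk
  exact Poly.map (F := fun a x => (S a).getD x false || decide (x ∈ L a)) (Poly.range_length hM)
    (Poly.or (Poly.getD (hS.comp p1) p2 (Poly.const false)) (Poly.decide_mem p2 (hL.comp p1)))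

theorem poly_bad (d : ℕ) (hM : Poly M) (hS : Poly S) : Poly (fun a => bad d (M a) (S a)) := by
  unfold bad
  exact Poly.filter (p := fun a r => decide (0 < (unr d (M a) (av (M a) (S a)) r).length))
    (poly_av hM hS) (Poly.decide_lt (Poly.const 0) (Poly.length (poly_unr d (hM.comp p1)
      (poly_av (hM.comp p1) (hS.comp p1)) p2)))

theorem poly_nst (d : ℕ) (hM : Poly M) (hk : UPoly k) (hS : Poly S) :
    Poly (fun a => nst d (M a) (k a) (S a)) := by
  unfold nst
  have hb := poly_bad d hM hS
  have h0 := Poly.getD hb (Poly.const 0) (Poly.const 0)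
  refine Poly.cond (Poly.decide_eq (Poly.length hb) (Poly.const 0)) (Poly.cons hS (Poly.const []))
    (Poly.cons (poly_mk hM hS (poly_unr d hM (poly_av hM hS) h0)) ?_)
  exact Poly.map (F := fun a b => mk (M a) (S a) [b]) (poly_brl d hM (poly_av hM hS) hk h0)
    (poly_mk (hM.comp p1) (hS.comp p1) (Poly.cons p2 (Poly.const [])))

theorem poly_est {cap : α → ℕ} {E : α → List (List Bool)} (d : ℕ) (hM : Poly M) (hk : UPoly k)
    (hcap : UPoly cap) (hE : Poly E) : Poly (fun a => est d (M a) (k a) (cap a) (E a)) := by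
  unfold est
  exact poly_takeU (Poly.flatMap (F := fun a S => nst d (M a) (k a) S) hE
    (poly_nst d (hM.comp p1) (hk.comp p1) p2)) hcap

theorem sz_bool (b : Bool) : sz b ≤ 3 := by
  cases b <;> decide

theorem sz_mask (l : List Bool) : sz l ≤ l.length * 4 + 1 :=
  sz_le_length_mul l 3 (fun b _ => sz_bool b)

theorem est_sz (d : ℕ) (M : List (List Bool)) (k cap : ℕ) (j : ℕ) :
    ((est d M k cap)^[j] [[]]).length ≤ cap + 1 ∧
      ∀ S ∈ (est d M k cap)^[j] [[]], S.length ≤ M.length := by
  induction j with
  | zero => simp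
  | succ j ih =>
    rw [Function.iterate_succ_apply']
    refine ⟨(List.length_take_le _ _).trans (Nat.le_succ _), fun S hS => ?_⟩
    have h1 := List.mem_of_mem_take hS
    rw [List.mem_flatMap] at h1
    obtain ⟨S', hS', h2⟩ := h1
    have h3 := ih.2 S' hS'
    unfold nst at h2
    cases hc : decide ((bad d M S').length = 0)
    · rw [hc, cond_false, List.mem_cons, List.mem_map] at h2
      rcases h2 with rfl | ⟨b, _, rfl⟩
      · unfold mk
        simp
      · unfold mk
        simp
    · rw [hc, cond_true, List.mem_singleton] at h2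
      exact h2 ▸ h3

theorem length_le_sz (M : List (List Bool)) : M.length ≤ sz M := (length_lt_sz M).le

theorem poly_iter {cap : α → ℕ} (d : ℕ) (hM : Poly M) (hk : UPoly k) (hcap : UPoly cap) :
    Poly (fun a => (est d (M a) (k a) (cap a))^[k a + 1] [[]]) := by
  obtain ⟨r, hr⟩ := hM.sz_le
  obtain ⟨u, hu⟩ := Poly.sz_le (f := fun a => List.replicate (cap a) ()) hcap
  refine Poly.iterU (s := fun _ => [[]]) (F := fun a E => est d (M a) (k a) (cap a) E)
    (UPoly.add hk (UPoly.const 1)) (Poly.const _)
    (poly_est d (hM.comp p1) (hk.comp p1) (hcap.comp p1) p2)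
    ((u + 1) * (r * Polynomial.C 4 + 1 + 1) + 1) ?_
  intro a j _
  have h1 := est_sz d (M a) (k a) (cap a) j
  have h2 := sz_le_length_mul _ ((M a).length * 4 + 1) (fun S hS =>
    (sz_mask S).trans (Nat.add_le_add_right (Nat.mul_le_mul_right 4 (h1.2 S hS)) 1))
  have h3 := hr a
  have h4 := hu a
  rw [sz_replicate_unit] at h4
  have h6 : cap a ≤ u.eval (sz a) := by omega
  have h7 : (M a).length ≤ r.eval (sz a) := (length_le_sz _).trans h3
  simp only [Polynomial.eval_add, Polynomial.eval_mul, Polynomial.eval_one, Polynomial.eval_C]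
  refine h2.trans (Nat.add_le_add_right (Nat.mul_le_mul (h1.1.trans (by omega)) ?_) 1)
  omega

theorem poly_cnt (hM : Poly M) (hS : Poly S) : Poly (fun a => cnt (M a) (S a)) := by
  unfold cnt
  exact Poly.length (Poly.filter (p := fun a x => (S a).getD x false) (Poly.range_length hM)
    (Poly.getD (hS.comp p1) p2 (Poly.const false)))

theorem poly_fin {E : α → List (List Bool)} (d : ℕ) (hM : Poly M) (hk : Poly k) (hE : Poly E) :
    Poly (fun a => fin d (M a) (k a) (E a)) := by
  unfold fin
  exact Poly.filter (p := fun a S => decide ((bad d (M a) S).length = 0) &&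
    decide (cnt (M a) S ≤ k a)) hE (Poly.and (Poly.decide_eq (Poly.length
      (poly_bad d (hM.comp p1) p2)) (Poly.const 0)) (Poly.decide_le (poly_cnt (hM.comp p1) p2)
        (hk.comp p1)))

theorem poly_alg {cap : α → ℕ} (d : ℕ) (hM : Poly M) (hk : UPoly k) (hcap : UPoly cap) :
    Poly (fun a => T2h18.DC.alg d (M a) (k a) (cap a)) := by
  unfold T2h18.DC.alg
  have h := poly_fin d hM hk.toPoly (poly_iter d hM hk hcap)
  exact Poly.pair (Poly.decide_lt (Poly.const 0) (Poly.length h)) (Poly.getD h (Poly.const 0)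
    (Poly.const []))

end

/-- The bound for the number of candidates. -/
def capb (d k : ℕ) : ℕ := pw ((d + k + 4) * (3 * d + 2) + 4) (k + 1)

theorem UF_capb (d : ℕ) : UF (fun k => capb d k) := by
  unfold capb
  exact UF.pw (UF.add (UF.mul (UF.add (UF.add (UF.const d) UF.id) (UF.const 4))
    (UF.const (3 * d + 2))) (UF.const 4)) (UF.add UF.id (UF.const 1))

/-- The running time of the algorithm. -/
theorem fpt_alg (d : ℕ) : FptTime (fun x : List (List Bool) × ℕ => x.2)
    (fun x => T2h18.DC.alg d x.1 x.2 (capb d x.2)) := by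
  have hp : Poly (fun y : (List (List Bool) × ℕ) × List Unit × List Unit =>
      T2h18.DC.alg d y.1.1 y.2.1.length y.2.2.length) :=
    poly_alg d (Poly.fst (Poly.fst Poly.id)) (UPoly.length (Poly.fst (Poly.snd Poly.id)))
      (UPoly.length (Poly.snd (Poly.snd Poly.id)))
  have hk : Poly (fun x : List (List Bool) × ℕ => x.2) := Poly.snd Poly.id
  have h3 := FptTime.poly_comp hp ((FptTime.of_poly (κ := fun x : List (List Bool) × ℕ => x.2)
    Poly.id).pair ((UF.pad UF.id hk).pair (UF.pad (UF_capb d) hk)))
  simpa only [List.length_replicate] using h3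

end Pool.Agent.NPC.DC
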