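import Mathlib

set_option autoImplicit false

/-!
# Deleting vertices so that the components have small domination number: the branching rule
-/

namespace Pool.Agent.T2h18.DC

open Classical

variable {V : Type} [DecidableEq V] (A : V → V → Prop)

/-- Reachability inside `R`. -/
def Rch (R : Finset V) (a b : V) : Prop := Relation.ReflTransGen (fun x y => A x y ∧ y ∈ R) a b

/-- The component of `r` in `R`. -/
noncomputable def cmp (R : Finset V) (r : V) : Finset V := R.filter (fun x => Rch A R r x)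

/-- `Z` dominates `y`. -/
def Dm (Z : Finset V) (y : V) : Prop := ∃ z ∈ Z, y = z ∨ A z y

/-- All components of the graph induced on `R` have a dominating set with at most `d` vertices. -/
def Ok (d : ℕ) (R : Finset V) : Prop :=
  ∀ r ∈ R, ∃ Z : Finset V, Z.card ≤ d ∧ Z ⊆ cmp A R r ∧ ∀ y ∈ cmp A R r, Dm A Z y

/-- Some subset of `R` with all but `k` elements of `N` has small components. -/
def Yes (d k : ℕ) (N R : Finset V) : Prop :=
  ∃ R' ⊆ R, (N \ R').card ≤ k ∧ Ok A d R'

variable {A}

theorem mem_cmp {R : Finset V} {r x : V} : x ∈ cmp A R r ↔ x ∈ R ∧ Rch A R r x := by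
  unfold cmp
  rw [Finset.mem_filter]

theorem self_cmp {R : Finset V} {r : V} (hr : r ∈ R) : r ∈ cmp A R r :=
  mem_cmp.2 ⟨hr, Relation.ReflTransGen.refl⟩

theorem cmp_sub (R : Finset V) (r : V) : cmp A R r ⊆ R := fun _ h => (mem_cmp.1 h).1

theorem cmp_step {R : Finset V} {r x y : V} (hx : x ∈ cmp A R r) (h : A x y) (hy : y ∈ R) :
    y ∈ cmp A R r :=
  mem_cmp.2 ⟨hy, (mem_cmp.1 hx).2.tail ⟨h, hy⟩⟩

theorem Rch.mono {R R' : Finset V} (h : R' ⊆ R) {a b : V} (hab : Rch A R' a b) : Rch A R a b := by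
  induction hab with
  | refl => exact Relation.ReflTransGen.refl
  | tail _ hbc ih => exact ih.tail ⟨hbc.1, h hbc.2⟩

theorem cmp_mono {R R' : Finset V} (h : R' ⊆ R) (r : V) : cmp A R' r ⊆ cmp A R r := fun _ hx =>
  mem_cmp.2 ⟨h (mem_cmp.1 hx).1, (mem_cmp.1 hx).2.mono h⟩

theorem Rch.symm (hA : ∀ x y, A x y → A y x) {R : Finset V} {a b : V} (ha : a ∈ R)
    (h : Rch A R a b) : Rch A R b a := by
  induction h with
  | refl => exact Relation.ReflTransGen.refl
  | tail hab hbc ih =>
    rename_i b c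
    have hb : b ∈ R := by
      cases hab with
      | refl => exact ha
      | tail _ h => exact h.2
    exact Relation.ReflTransGen.head ⟨hA _ _ hbc.1, hb⟩ ih

theorem cmp_eq (hA : ∀ x y, A x y → A y x) {R : Finset V} {r x : V} (hr : r ∈ R)
    (hx : x ∈ cmp A R r) : cmp A R x = cmp A R r := by
  ext y
  rw [mem_cmp, mem_cmp]
  constructor
  · rintro ⟨hy, h⟩
    exact ⟨hy, (mem_cmp.1 hx).2.trans h⟩
  · rintro ⟨hy, h⟩
    exact ⟨hy, ((mem_cmp.1 hx).2.symm hA hr).trans h⟩

/-- The exchange of the part of the deletion set in one component. -/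
theorem swap (hA : ∀ x y, A x y → A y x) {d : ℕ} {R R' : Finset V} (hR : R' ⊆ R) {r : V}
    (hr : r ∈ R) {Zs : Finset V} (hc : Zs.card ≤ d) (hZ : Zs ⊆ cmp A R r) (hok : Ok A d R') :
    Ok A d ((R' \ cmp A R r) ∪ (cmp A R r).filter (fun y => Dm A Zs y)) := by
  set H := cmp A R r with hH
  set T := (R' \ H) ∪ H.filter (fun y => Dm A Zs y) with hT
  have hTR : T ⊆ R := by
    intro y hy
    rw [hT, Finset.mem_union, Finset.mem_sdiff, Finset.mem_filter] at hy
    rcases hy with hy | hy
    · exact hR hy.1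
    · exact cmp_sub _ _ hy.1
  have hZT : ∀ z ∈ Zs, z ∈ T := by
    intro z hz
    rw [hT, Finset.mem_union, Finset.mem_filter]
    exact Or.inr ⟨hZ hz, z, hz, Or.inl rfl⟩
  intro q hq
  by_cases hqH : q ∈ H
  · refine ⟨Zs.filter (fun z => z ∈ cmp A T q), (Finset.card_filter_le _ _).trans hc, ?_, ?_⟩
    · intro z hz
      exact (Finset.mem_filter.1 hz).2
    · intro y hy
      have hyT := cmp_sub _ _ hy
      have hyH : y ∈ H := by
        have := cmp_mono hTR q hy
        rwa [cmp_eq hA hr hqH] at this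
      have hyD : Dm A Zs y := by
        rw [hT, Finset.mem_union, Finset.mem_sdiff, Finset.mem_filter] at hyT
        rcases hyT with h | h
        · exact absurd hyH h.2
        · exact h.2
      obtain ⟨z, hz, h⟩ := hyD
      refine ⟨z, Finset.mem_filter.2 ⟨hz, ?_⟩, h⟩
      rcases h with rfl | h
      · exact hy
      · exact cmp_step hy (hA _ _ h) (hZT z hz)
  · have hq' : q ∈ R' := by
      rw [hT, Finset.mem_union, Finset.mem_sdiff, Finset.mem_filter] at hq
      rcases hq with h | h
      · exact h.1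
      · exact absurd h.1 hqH
    have hout : ∀ W : Finset V, W ⊆ R → ∀ y, Rch A W q y → y ∉ H := by
      intro W hW y hy
      induction hy with
      | refl => exact hqH
      | tail hab hbc ih =>
        rename_i b c
        intro hcH
        apply ih
        have hb : b ∈ W ∨ b = q := by
          cases hab with
          | refl => exact Or.inr rfl
          | tail _ h => exact Or.inl h.2
        have hbR : b ∈ R := by
          rcases hb with hb | rfl
          · exact hW hb
          · exact hR hq'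
        exact cmp_step hcH (hA _ _ hbc.1) hbR
    have heq : cmp A T q = cmp A R' q := by
      ext y
      rw [mem_cmp, mem_cmp]
      constructor
      · rintro ⟨hy, h⟩
        have hyH := hout T hTR y h
        have h1 : ∀ y, Rch A T q y → Rch A R' q y := by
          intro y h
          induction h with
          | refl => exact Relation.ReflTransGen.refl
          | tail hab hbc ih =>
            rename_i b c
            have hcH := hout T hTR c (hab.tail hbc)
            have hc' : c ∈ R' := by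
              have := hbc.2
              rw [hT, Finset.mem_union, Finset.mem_sdiff, Finset.mem_filter] at this
              rcases this with h | h
              · exact h.1
              · exact absurd h.1 hcH
            exact ih.tail ⟨hbc.1, hc'⟩
        refine ⟨?_, h1 y h⟩
        rw [hT, Finset.mem_union, Finset.mem_sdiff, Finset.mem_filter] at hy
        rcases hy with h | h
        · exact h.1
        · exact absurd h.1 hyH
      · rintro ⟨hy, h⟩
        have hyH := hout R' hR y h
        have h1 : ∀ y, Rch A R' q y → Rch A T q y := by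
          intro y h
          induction h with
          | refl => exact Relation.ReflTransGen.refl
          | tail hab hbc ih =>
            rename_i b c
            have hcH := hout R' hR c (hab.tail hbc)
            have hc' : c ∈ T := by
              rw [hT, Finset.mem_union, Finset.mem_sdiff]
              exact Or.inl ⟨hbc.2, hcH⟩
            exact ih.tail ⟨hbc.1, hc'⟩
        refine ⟨?_, h1 y h⟩
        rw [hT, Finset.mem_union, Finset.mem_sdiff]
        exact Or.inl ⟨hy, hyH⟩
    obtain ⟨Z, h1, h2, h3⟩ := hok q hq'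
    rw [← heq] at h2 h3
    exact ⟨Z, h1, h2, h3⟩

/-- The main case of the branching rule. -/
theorem branchB (hA : ∀ x y, A x y → A y x) {d k : ℕ} {N R R' : Finset V} (hN : R ⊆ N)
    (hR : R' ⊆ R) {r : V} (hr : r ∈ R') {Zs U' : Finset V} (hc : Zs.card ≤ d)
    (hZ : Zs ⊆ cmp A R r)
    (hmax : ∀ Z : Finset V, Z.card ≤ d → Z ⊆ cmp A R r →
      ((cmp A R r).filter (fun y => Dm A Z y)).card ≤
        ((cmp A R r).filter (fun y => Dm A Zs y)).card)
    (hU' : U' ⊆ (cmp A R r).filter (fun y => ¬ Dm A Zs y))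
    (hU : (cmp A R r).filter (fun y => ¬ Dm A Zs y) ⊆ U' ∨ k + 1 ≤ U'.card)
    (hk : (N \ R').card ≤ k) (hok : Ok A d R')
    (hZr : ∀ z ∈ Zs, z ∈ cmp A R' r) (hUr : ∀ u ∈ U', u ∈ cmp A R' r) :
    Yes A d k N (R \ (cmp A R r).filter (fun y => ¬ Dm A Zs y)) := by
  set H := cmp A R r with hH
  have hrR : r ∈ R := hR hr
  obtain ⟨Z, hZc, hZK, hZd⟩ := hok r hr
  have hKH : cmp A R' r ⊆ H := cmp_mono hR r
  have hle := hmax Z hZc (hZK.trans hKH)
  set a := H.filter (fun y => Dm A Z y) with ha
  set b := H.filter (fun y => Dm A Zs y) with hb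
  -- the vertices dominated by `Zs` are in `K` or deleted
  have hbK : ∀ y ∈ b, y ∈ R' → y ∈ cmp A R' r := by
    intro y hy hyR
    obtain ⟨z, hz, h⟩ := (Finset.mem_filter.1 hy).2
    rcases h with rfl | h
    · exact hZr _ hz
    · exact cmp_step (hZr z hz) h hyR
  have hba : b \ a ⊆ H \ R' := by
    intro y hy
    rw [Finset.mem_sdiff] at hy ⊢
    refine ⟨(Finset.mem_filter.1 hy.1).1, fun hyR => hy.2 ?_⟩
    have hyK := hbK y hy.1 hyR
    exact Finset.mem_filter.2 ⟨hKH hyK, hZd y hyK⟩
  have hHk : (H \ R').card ≤ k :=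
    (Finset.card_le_card (Finset.sdiff_subset_sdiff ((cmp_sub _ _).trans hN) le_rfl)).trans hk
  have hcard : (a \ b).card ≤ k := by
    have h1 := Finset.card_sdiff_add_card_inter a b
    have h2 := Finset.card_sdiff_add_card_inter b a
    have h3 : (b \ a).card ≤ k := (Finset.card_le_card hba).trans hHk
    rw [Finset.inter_comm] at h2
    omega
  have hU'a : U' ⊆ a \ b := by
    intro u hu
    rw [Finset.mem_sdiff]
    have h1 := Finset.mem_filter.1 (hU' hu)
    refine ⟨Finset.mem_filter.2 ⟨h1.1, hZd u (hUr u hu)⟩, fun h => h1.2 (Finset.mem_filter.1 h).2⟩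
  have hUU : H.filter (fun y => ¬ Dm A Zs y) ⊆ U' := by
    rcases hU with h | h
    · exact h
    · have := (Finset.card_le_card hU'a).trans hcard
      omega
  -- `K = H ∩ R'`
  have hK : ∀ y ∈ H, y ∈ R' → y ∈ cmp A R' r := by
    intro y hy hyR
    by_cases h : Dm A Zs y
    · exact hbK y (Finset.mem_filter.2 ⟨hy, h⟩) hyR
    · exact hUr y (hUU (Finset.mem_filter.2 ⟨hy, h⟩))
  have hHa : H \ a ⊆ H \ R' := by
    intro y hy
    rw [Finset.mem_sdiff] at hy ⊢
    refine ⟨hy.1, fun hyR => hy.2 ?_⟩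
    exact Finset.mem_filter.2 ⟨hy.1, hZd y (hK y hy.1 hyR)⟩
  have hUe : H.filter (fun y => ¬ Dm A Zs y) = H \ b := by
    ext y
    rw [Finset.mem_filter, Finset.mem_sdiff, hb, Finset.mem_filter]
    tauto
  have hUcard : (H \ b).card ≤ (H \ R').card := by
    have ha' : (H \ a).card = H.card - a.card :=
      Finset.card_sdiff_of_subset (Finset.filter_subset _ _)
    have hb' : (H \ b).card = H.card - b.card :=
      Finset.card_sdiff_of_subset (Finset.filter_subset _ _)
    have h1 : (H \ b).card ≤ (H \ a).card := by omega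
    exact h1.trans (Finset.card_le_card hHa)
  refine ⟨(R' \ H) ∪ b, ?_, ?_, swap hA hR hrR hc hZ hok⟩
  · intro y hy
    rw [Finset.mem_union, Finset.mem_sdiff] at hy
    rw [hUe, Finset.mem_sdiff, Finset.mem_sdiff]
    rcases hy with hy | hy
    · exact ⟨hR hy.1, fun h => hy.2 h.1⟩
    · exact ⟨cmp_sub _ _ (Finset.mem_filter.1 hy).1, fun h => h.2 hy⟩
  · have h1 : N \ ((R' \ H) ∪ b) ⊆ ((N \ R') \ H) ∪ (H \ b) := by
      intro y hy
      rw [Finset.mem_sdiff, Finset.mem_union, Finset.mem_sdiff] at hy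
      rw [Finset.mem_union, Finset.mem_sdiff, Finset.mem_sdiff, Finset.mem_sdiff]
      tauto
    have h2 : ((N \ R') \ H).card + (H \ R').card ≤ (N \ R').card := by
      have h3 : H \ R' ⊆ (N \ R') ∩ H := by
        intro y hy
        rw [Finset.mem_sdiff] at hy
        rw [Finset.mem_inter, Finset.mem_sdiff]
        exact ⟨⟨hN (cmp_sub _ _ hy.1), hy.2⟩, hy.1⟩
      have h4 := Finset.card_sdiff_add_card_inter (N \ R') H
      have h5 := Finset.card_le_card h3
      omega
    calc (N \ ((R' \ H) ∪ b)).card ≤ (((N \ R') \ H) ∪ (H \ b)).card := Finset.card_le_card h1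
      _ ≤ ((N \ R') \ H).card + (H \ b).card := Finset.card_union_le _ _
      _ ≤ k := by omega

/-- Balls. -/
def bl (A : V → V → Prop) (R : Finset V) (r : V) : ℕ → Set V
  | 0 => {r}
  | j + 1 => {y | y ∈ R ∧ ∃ x ∈ bl A R r j, y = x ∨ A x y}

theorem bl_mono {R : Finset V} {r : V} (hr : r ∈ R) {i j : ℕ} (h : i ≤ j) :
    bl A R r i ⊆ bl A R r j := by
  have hR : ∀ j, bl A R r j ⊆ (R : Set V) := by
    intro j
    cases j with
    | zero => intro x hx; rw [bl, Set.mem_singleton_iff] at hx; exact hx ▸ hr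
    | succ j => intro x hx; exact hx.1
  induction h with
  | refl => exact subset_rfl
  | step h ih =>
    intro x hx
    exact ⟨hR _ (ih hx), x, ih hx, Or.inl rfl⟩

theorem bl_sub {R : Finset V} {r : V} (hr : r ∈ R) (j : ℕ) {x : V} (hx : x ∈ bl A R r j) :
    x ∈ R := by
  cases j with
  | zero => rw [bl, Set.mem_singleton_iff] at hx; exact hx ▸ hr
  | succ j => exact hx.1

theorem bl_cmp {R : Finset V} {r : V} (hr : r ∈ R) (j : ℕ) {x : V} (hx : x ∈ bl A R r j) :
    x ∈ cmp A R r := by
  induction j generalizing x with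
  | zero =>
    rw [bl, Set.mem_singleton_iff] at hx
    subst hx
    exact self_cmp hr
  | succ j ih =>
    obtain ⟨hx, y, hy, h⟩ := hx
    rcases h with rfl | h
    · exact ih hy
    · exact cmp_step (ih hy) h hx

/-- A walk of `m` steps. -/
def IsW (A : V → V → Prop) (R : Finset V) (r : V) (m : ℕ) (t : ℕ → V) : Prop :=
  t 0 = r ∧ ∀ i < m, t (i + 1) ∈ R ∧ (t (i + 1) = t i ∨ A (t i) (t (i + 1)))

theorem walk_cmp {R R' : Finset V} {r : V} {m : ℕ} {t : ℕ → V} (ht : IsW A R r m t)
    (h : ∀ i ≤ m, t i ∈ R') {i : ℕ} (hi : i ≤ m) : t i ∈ cmp A R' r := by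
  induction i with
  | zero =>
    have := h 0 (Nat.zero_le _)
    rw [ht.1] at this ⊢
    exact self_cmp this
  | succ i ih =>
    have h1 := ih (by omega)
    rcases (ht.2 i (by omega)).2 with h2 | h2
    · rw [h2]; exact h1
    · exact cmp_step h1 h2 (h _ hi)

/-- A far vertex. -/
theorem branchA {d : ℕ} (hd : 1 ≤ d) (hA : ∀ x y, A x y → A y x) {R R' : Finset V} (hR : R' ⊆ R)
    {r : V} {t : ℕ → V} (ht : IsW A R r (3 * d) t) (h : ∀ i ≤ 3 * d, t i ∈ R')
    (hfar : t (3 * d) ∉ bl A R r (3 * d - 1)) (hok : Ok A d R') : False := by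
  have hr : r ∈ R' := by have := h 0 (Nat.zero_le _); rwa [ht.1] at this
  have hrR := hR hr
  obtain ⟨Z, hZc, hZK, hZd⟩ := hok r hr
  have hK : ∀ i ≤ 3 * d, t i ∈ cmp A R' r := fun i hi => walk_cmp ht h hi
  have hdom : ∀ i : Fin (d + 1), ∃ z ∈ Z, t (3 * i) = z ∨ A z (t (3 * i)) := fun i =>
    hZd _ (hK _ (by omega))
  choose f hfZ hf using hdom
  obtain ⟨i, j, hij, he⟩ : ∃ i j : Fin (d + 1), i < j ∧ f i = f j := by
    by_contra hcon
    push Not at hcon
    have hinj : Function.Injective f := by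
      intro i j hij
      rcases lt_trichotomy i j with h | h | h
      · exact absurd hij (hcon i j h)
      · exact h
      · exact absurd hij.symm (hcon j i h)
    have h1 : (Finset.univ : Finset (Fin (d + 1))).card ≤ Z.card :=
      Finset.card_le_card_of_injOn f (fun i _ => hfZ i) (hinj.injOn)
    rw [Finset.card_univ, Fintype.card_fin] at h1
    omega
  have hb : ∀ m ≤ 3 * d, t m ∈ bl A R r m := by
    intro m hm
    induction m with
    | zero => rw [bl, Set.mem_singleton_iff]; exact ht.1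
    | succ m ih =>
      obtain ⟨h1, h2⟩ := ht.2 m (by omega)
      exact ⟨h1, t m, ih (by omega), h2⟩
  have hzR : f i ∈ R := hR (cmp_sub _ _ (hZK (hfZ i)))
  have h1 : f i ∈ bl A R r (3 * i + 1) := by
    refine ⟨hzR, t (3 * i), hb _ (by omega), ?_⟩
    rcases hf i with h | h
    · exact Or.inl h.symm
    · exact Or.inr (hA _ _ h)
  have h2 : t (3 * j) ∈ bl A R r (3 * i + 2) := by
    refine ⟨hR (h _ (by omega)), f i, h1, ?_⟩
    rw [he]
    exact hf j
  have h3 : ∀ m, 3 * (j : ℕ) + m ≤ 3 * d → t (3 * j + m) ∈ bl A R r (3 * i + 2 + m) := by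
    intro m
    induction m with
    | zero => intro _; exact h2
    | succ m ih =>
      intro hm
      obtain ⟨h4, h5⟩ := ht.2 (3 * j + m) (by omega)
      exact ⟨h4, t (3 * j + m), ih (by omega), h5⟩
  have hj := j.2
  have hij' : (i : ℕ) < j := hij
  have h4 := h3 (3 * d - 3 * j) (by omega)
  rw [show 3 * (j : ℕ) + (3 * d - 3 * j) = 3 * d by omega] at h4
  exact hfar (bl_mono hrR (by omega) h4)

/-- If the balls stop growing they are the component. -/
theorem bl_stop {R : Finset V} {r : V} (hr : r ∈ R) {j : ℕ}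
    (h : bl A R r (j + 1) ⊆ bl A R r j) {x : V} (hx : x ∈ cmp A R r) : x ∈ bl A R r j := by
  have h1 := (mem_cmp.1 hx).2
  have : ∀ y, Rch A R r y → y ∈ bl A R r j := by
    intro y hy
    induction hy with
    | refl => exact bl_mono hr (Nat.zero_le _) rfl
    | tail hab hbc ih => exact h ⟨hbc.2, _, ih, Or.inr hbc.1⟩
  exact this x h1

/-- The branching rule. -/
theorem branch (hA : ∀ x y, A x y → A y x) {d k : ℕ} (hd : 1 ≤ d) {N R : Finset V} (hN : R ⊆ N)
    {r : V} (hr : r ∈ R) {Zs U' : Finset V} (hc : Zs.card ≤ d)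
    (hZ : Zs ⊆ cmp A R r)
    (hmax : ∀ Z : Finset V, Z.card ≤ d → Z ⊆ cmp A R r →
      ((cmp A R r).filter (fun y => Dm A Z y)).card ≤
        ((cmp A R r).filter (fun y => Dm A Zs y)).card)
    (hU' : U' ⊆ (cmp A R r).filter (fun y => ¬ Dm A Zs y))
    (hU : (cmp A R r).filter (fun y => ¬ Dm A Zs y) ⊆ U' ∨ k + 1 ≤ U'.card)
    {B : Finset V}
    (hB : ∀ x ∈ Zs ∪ U', x ∈ bl A R r (3 * d) →
      ∃ t : ℕ → V, IsW A R r (3 * d) t ∧ t (3 * d) = x ∧ ∀ i ≤ 3 * d, t i ∈ B)
    (hF : (∃ x, x ∈ bl A R r (3 * d) ∧ x ∉ bl A R r (3 * d - 1)) →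
      ∃ t : ℕ → V, IsW A R r (3 * d) t ∧ t (3 * d) ∉ bl A R r (3 * d - 1) ∧
        ∀ i ≤ 3 * d, t i ∈ B)
    (hrB : r ∈ B) (hy : Yes A d k N R) :
    Yes A d k N (R \ (cmp A R r).filter (fun y => ¬ Dm A Zs y)) ∨
      ∃ b ∈ B, Yes A d k N (R.erase b) := by
  obtain ⟨R', hR', hk, hok⟩ := hy
  by_cases hBR : ∀ b ∈ B, b ∈ R'
  · left
    by_cases hf : ∃ x, x ∈ bl A R r (3 * d) ∧ x ∉ bl A R r (3 * d - 1)
    · obtain ⟨t, ht, h1, h2⟩ := hF hf
      exact (branchA hd hA hR' ht (fun i hi => hBR _ (h2 i hi)) h1 hok).elim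
    · push Not at hf
      have hst : ∀ x ∈ cmp A R r, x ∈ bl A R r (3 * d - 1) := by
        intro x hx
        refine bl_stop hr ?_ hx
        rw [show 3 * d - 1 + 1 = 3 * d by omega]
        exact hf
      have hall : ∀ x ∈ Zs ∪ U', x ∈ cmp A R' r := by
        intro x hx
        have hxc : x ∈ cmp A R r := by
          rcases Finset.mem_union.1 hx with h | h
          · exact hZ h
          · exact (Finset.mem_filter.1 (hU' h)).1
        obtain ⟨t, ht, h1, h2⟩ := hB x hx (bl_mono hr (by omega) (hst x hxc))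
        rw [← h1]
        exact walk_cmp ht (fun i hi => hBR _ (h2 i hi)) le_rfl
      exact branchB hA hN hR' (hBR r hrB) hc hZ hmax hU' hU hk hok
        (fun z hz => hall z (Finset.mem_union_left _ hz))
        (fun u hu => hall u (Finset.mem_union_right _ hu))
  · right
    push Not at hBR
    obtain ⟨b, hb, hbR⟩ := hBR
    refine ⟨b, hb, R', ?_, hk, hok⟩
    intro y hy
    exact Finset.mem_erase.2 ⟨fun h => hbR (h ▸ hy), hR' hy⟩

end Pool.Agent.T2h18.DC
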