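import Pool.Agent.H633R2.FptDefs

set_option autoImplicit false

/-!
# Vertex Decomposition into Small Dominator Clusters
-/

namespace Pool.Agent.T2h18.DC

open Pool.Agent.H633R2

/-- The domination number of a graph: the least number of vertices of a dominating set. -/
noncomputable def domNum {V : Type} (H : SimpleGraph V) : ℕ :=
  sInf {m | ∃ D : Finset V, D.card = m ∧ ∀ v, v ∈ D ∨ ∃ u ∈ D, H.Adj u v}

/-- `S` is a set of at most `k` vertices of the graph `G` of the instance `x = (G, k)` such that every
connected component of `G - S` has domination number at most `d`. (`G` is given by its adjacency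
matrix.) -/
def IsSolution (d : ℕ) (x : List (List Bool) × ℕ) (S : Set (Fin x.1.length)) : Prop :=
  S.ncard ≤ x.2 ∧
    ∀ C : ((graphOf x.1).induce Sᶜ).ConnectedComponent, domNum C.toSimpleGraph ≤ d

/-- The problem Vertex Decomposition into Small Dominator Clusters, for fixed `d`. -/
def SmallDominatorClusters (d : ℕ) (x : List (List Bool) × ℕ) : Prop :=
  ∃ S : Set (Fin x.1.length), IsSolution d x S

/-- The set of vertices which is given by a bit string (missing entries are `0`). -/
def setOf (x : List (List Bool) × ℕ) (l : List Bool) : Set (Fin x.1.length) :=
  {v | l.getD v false = true}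

end Pool.Agent.T2h18.DC
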