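import Pool.Agent.T2h18.DC.Spec
import Pool.Agent.T2h18.DC.Defs

set_option autoImplicit false

/-!
# The problem is fixed-parameter tractable for every fixed `d`
-/

namespace Pool.Agent.T2h18.DC

open Pool.Agent.H633R2
open Pool.Agent.H633R2.Ctr (adj bal grow tuples Aj Aj_iff Aj_symm mem_tuples nodup_bal)

open Classical

variable {M : List (List Bool)}

theorem flatMap_length_le {α β : Type} (f : α → List β) (c : ℕ) (l : List α)
    (h : ∀ x ∈ l, (f x).length ≤ c) : (l.flatMap f).length ≤ l.length * c := by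
  induction l with
  | nil => simp
  | cons a l ih =>
    rw [List.flatMap_cons, List.length_append, List.length_cons, Nat.succ_mul]
    have h1 := h a List.mem_cons_self
    have h2 := ih (fun x hx => h x (List.mem_cons_of_mem _ hx))
    omega

/-- The bound for the number of branches. -/
def bt (d k : ℕ) : ℕ := (d + k + 4) * (3 * d + 2) + 4

theorem nst_length {d k : ℕ} (hd : 1 ≤ d) (S : List Bool) : (nst d M k S).length ≤ bt d k := by
  unfold nst bt
  by_cases h0 : (bad d M S).length = 0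
  · rw [decide_eq_true h0, cond_true, List.length_singleton]
    omega
  rw [decide_eq_false h0, cond_false]
  set r := (bad d M S).getD 0 0 with hrdef
  have hr : r ∈ bad d M S := by
    rw [hrdef, List.getD_eq_getElem _ _ (by omega)]
    exact List.getElem_mem _
  obtain ⟨hr, hlen⟩ := mem_bad.1 hr
  rw [List.length_cons, List.length_map]
  unfold brl
  rw [List.length_cons]
  have h1 := flatMap_length_le (fun x => wk (3 * d) M (av M S) r x) (3 * d + 1)
    (tg d M (av M S) k r) (fun x _ => wk_length _ _ _ _)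
  have h2 : (tg d M (av M S) k r).length ≤ d + (k + 1 + 1) := by
    unfold tg
    rw [List.length_append, List.length_append, (mem_tuples.1 (bz_spec hd hr).1).1]
    have h3 := List.length_take_le (k + 1) (unr d M (av M S) r)
    have h4 := List.length_take_le 1 (far d M (av M S) r)
    omega
  have h3 : (tg d M (av M S) k r).length * (3 * d + 1) ≤ (d + (k + 1 + 1)) * (3 * d + 1) :=
    Nat.mul_le_mul_right _ h2
  have h4 : (d + (k + 1 + 1)) * (3 * d + 1) ≤ (d + k + 4) * (3 * d + 2) :=
    Nat.mul_le_mul (by omega) (by omega)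
  omega

theorem AV_nil : AV M [] = Finset.range M.length := by
  ext x
  rw [mem_AV, Finset.mem_range]
  simp

theorem iter_spec {d k cap : ℕ} (hd : 1 ≤ d) (hcap : bt d k ^ (k + 1) ≤ cap)
    (hy : Yes (Aj false M) d k (Finset.range M.length) (Finset.range M.length)) :
    ∀ j ≤ k + 1, ((est d M k cap)^[j] [[]]).length ≤ bt d k ^ j ∧
      ∃ S ∈ (est d M k cap)^[j] [[]],
        Yes (Aj false M) d k (Finset.range M.length) (AV M S) ∧
          ((bad d M S).length = 0 ∨ j ≤ cnt M S) := by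
  intro j
  induction j with
  | zero =>
    intro _
    refine ⟨by simp, [], by simp, ?_, Or.inr (Nat.zero_le _)⟩
    rw [AV_nil]
    exact hy
  | succ j ih =>
    intro hj
    obtain ⟨h1, S, hS, h2, h3⟩ := ih (by omega)
    rw [Function.iterate_succ_apply']
    set E := (est d M k cap)^[j] [[]] with hE
    have hlen : (E.flatMap (fun S => nst d M k S)).length ≤ bt d k ^ (j + 1) := by
      refine (flatMap_length_le _ (bt d k) E (fun S _ => nst_length hd S)).trans ?_
      rw [pow_succ]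
      exact Nat.mul_le_mul_right _ h1
    have hle : bt d k ^ (j + 1) ≤ cap :=
      (Nat.pow_le_pow_right (by unfold bt; omega) hj).trans hcap
    have htake : est d M k cap E = E.flatMap (fun S => nst d M k S) := by
      unfold est
      exact List.take_of_length_le (hlen.trans hle)
    rw [htake]
    refine ⟨hlen, ?_⟩
    by_cases h0 : (bad d M S).length = 0
    · refine ⟨S, List.mem_flatMap.2 ⟨S, hS, ?_⟩, h2, Or.inl h0⟩
      unfold nst
      rw [decide_eq_true h0, cond_true]
      exact List.mem_singleton.2 rfl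
    · obtain ⟨S', hS', h4, h5⟩ := nst_spec hd h2
      refine ⟨S', List.mem_flatMap.2 ⟨S, hS, hS'⟩, h4, ?_⟩
      rcases h5 with h5 | h5
      · exact Or.inl h5
      · rcases h3 with h3 | h3
        · exact absurd h3 h0
        · exact Or.inr (by omega)

theorem alg_sound {d k cap : ℕ} (hd : 1 ≤ d) (h : (alg d M k cap).1 = true) :
    Ok (Aj false M) d (AV M (alg d M k cap).2) ∧
      (Finset.range M.length \ AV M (alg d M k cap).2).card ≤ k := by
  unfold alg at h ⊢
  simp only at h ⊢
  set F := fin d M k ((est d M k cap)^[k + 1] [[]]) with hF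
  have hpos : 0 < F.length := of_decide_eq_true h
  rw [List.getD_eq_getElem _ _ hpos]
  have h1 := (List.mem_filter.1 (List.getElem_mem hpos)).2
  rw [Bool.and_eq_true, decide_eq_true_eq, decide_eq_true_eq] at h1
  refine ⟨ok_of_bad hd h1.1, ?_⟩
  rw [← cnt_eq]
  exact h1.2

theorem alg_complete {d k cap : ℕ} (hd : 1 ≤ d) (hcap : bt d k ^ (k + 1) ≤ cap)
    (hy : Yes (Aj false M) d k (Finset.range M.length) (Finset.range M.length)) :
    (alg d M k cap).1 = true := by
  obtain ⟨-, S, hS, ⟨R', hR', h1, -⟩, h2⟩ := iter_spec hd hcap hy (k + 1) le_rfl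
  have h3 : cnt M S ≤ k := by
    rw [cnt_eq]
    exact (Finset.card_le_card (Finset.sdiff_subset_sdiff le_rfl hR')).trans h1
  have h4 : (bad d M S).length = 0 := by
    rcases h2 with h2 | h2
    · exact h2
    · omega
  unfold alg
  simp only
  apply decide_eq_true
  apply List.length_pos_of_mem (a := S)
  unfold fin
  rw [List.mem_filter, Bool.and_eq_true, decide_eq_true_eq, decide_eq_true_eq]
  exact ⟨hS, h4, h3⟩

/-! ### Graphs -/

/-- The complement, as a set of numbers. -/
noncomputable def rem (S : Set (Fin M.length)) : Finset ℕ :=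
  (Finset.univ.filter (fun v : Fin M.length => v ∉ S)).map Fin.valEmbedding

theorem mem_rem {S : Set (Fin M.length)} {x : ℕ} : x ∈ rem S ↔ ∃ h : x < M.length,
    (⟨x, h⟩ : Fin M.length) ∉ S := by
  unfold rem
  rw [Finset.mem_map]
  constructor
  · rintro ⟨v, hv, rfl⟩
    exact ⟨v.2, (Finset.mem_filter.1 hv).2⟩
  · rintro ⟨h, hx⟩
    exact ⟨⟨x, h⟩, Finset.mem_filter.2 ⟨Finset.mem_univ _, hx⟩, rfl⟩

theorem adj_iff {u v : Fin M.length} : (graphOf M).Adj u v ↔ Aj false M u v := by
  rw [Aj_iff]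
  unfold graphOf
  simp only [Bool.xor_false, Bool.or_eq_true, ne_eq, Fin.ext_iff, u.2, v.2, true_and]

theorem reach_iff {S : Set (Fin M.length)} {u v : (Sᶜ : Set (Fin M.length))} :
    ((graphOf M).induce Sᶜ).Reachable u v ↔ Rch (Aj false M) (rem S) u.1 v.1 := by
  rw [SimpleGraph.reachable_iff_reflTransGen]
  constructor
  · intro h
    induction h with
    | refl => exact Relation.ReflTransGen.refl
    | tail hab hbc ih =>
      rename_i b c
      exact ih.tail ⟨adj_iff.1 hbc, mem_rem.2 ⟨c.1.2, c.2⟩⟩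
  · intro h
    have key : ∀ x, Rch (Aj false M) (rem S) u.1 x → ∀ (h : x < M.length)
        (h' : (⟨x, h⟩ : Fin M.length) ∉ S), Relation.ReflTransGen ((graphOf M).induce Sᶜ).Adj u
          ⟨⟨x, h⟩, h'⟩ := by
      intro x hx
      induction hx with
      | refl => intro h h'; exact Relation.ReflTransGen.refl
      | tail hab hbc ih =>
        rename_i b c
        intro h h'
        have hb : ∃ hb : b < M.length, (⟨b, hb⟩ : Fin M.length) ∉ S := by
          cases hab with
          | refl => exact ⟨u.1.2, u.2⟩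
          | tail _ h => exact mem_rem.1 h.2
        obtain ⟨hb, hb'⟩ := hb
        refine (ih hb hb').tail ?_
        show (graphOf M).Adj ⟨b, hb⟩ ⟨c, h⟩
        exact adj_iff.2 hbc.1
    exact key _ h v.1.2 v.2

theorem domNum_le_iff {V : Type} [Fintype V] {H : SimpleGraph V} {d : ℕ} :
    domNum H ≤ d ↔ ∃ D : Finset V, D.card ≤ d ∧ ∀ v, v ∈ D ∨ ∃ u ∈ D, H.Adj u v := by
  unfold domNum
  constructor
  · intro h
    have hne : {m | ∃ D : Finset V, D.card = m ∧ ∀ v, v ∈ D ∨ ∃ u ∈ D, H.Adj u v}.Nonempty :=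
      ⟨_, Finset.univ, rfl, fun v => Or.inl (Finset.mem_univ v)⟩
    obtain ⟨D, h1, h2⟩ := Nat.sInf_mem hne
    exact ⟨D, h1.le.trans h, h2⟩
  · rintro ⟨D, h1, h2⟩
    exact (Nat.sInf_le (s := {m | ∃ D : Finset V, D.card = m ∧
      ∀ v, v ∈ D ∨ ∃ u ∈ D, H.Adj u v}) ⟨D, rfl, h2⟩).trans h1

theorem bridge {d : ℕ} (S : Set (Fin M.length)) :
    (∀ C : ((graphOf M).induce Sᶜ).ConnectedComponent, domNum C.toSimpleGraph ≤ d) ↔
      Ok (Aj false M) d (rem S) := by
  constructor
  · intro h r hr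
    obtain ⟨hr1, hr2⟩ := mem_rem.1 hr
    set u : (Sᶜ : Set (Fin M.length)) := ⟨⟨r, hr1⟩, hr2⟩ with hu
    set C := ((graphOf M).induce Sᶜ).connectedComponentMk u with hC
    obtain ⟨D, hD1, hD2⟩ := domNum_le_iff.1 (h C)
    refine ⟨D.image (fun c => ((c.1.1 : Fin M.length) : ℕ)), Finset.card_image_le.trans hD1,
      ?_, ?_⟩
    · intro z hz
      obtain ⟨c, -, hcz⟩ := Finset.mem_image.1 hz
      rw [← hcz]
      have hc : ((graphOf M).induce Sᶜ).connectedComponentMk c.1 = C := c.2
      have h1 := SimpleGraph.ConnectedComponent.exact hc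
      exact mem_cmp.2 ⟨mem_rem.2 ⟨c.1.1.2, c.1.2⟩, reach_iff.1 h1.symm⟩
    · intro y hy
      obtain ⟨hy1, hy2⟩ := mem_rem.1 (cmp_sub _ _ hy)
      set w : (Sᶜ : Set (Fin M.length)) := ⟨⟨y, hy1⟩, hy2⟩ with hw
      have h1 : ((graphOf M).induce Sᶜ).Reachable u w := reach_iff.2 (mem_cmp.1 hy).2
      have h2 : ((graphOf M).induce Sᶜ).connectedComponentMk w = C :=
        (SimpleGraph.ConnectedComponent.sound h1).symm
      rcases hD2 ⟨w, h2⟩ with h3 | ⟨z, hz, h3⟩
      · exact ⟨y, Finset.mem_image.2 ⟨_, h3, rfl⟩, Or.inl rfl⟩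
      · refine ⟨_, Finset.mem_image.2 ⟨z, hz, rfl⟩, Or.inr ?_⟩
        have h4 : (graphOf M).Adj z.1.1 w.1 := h3
        exact adj_iff.1 h4
  · intro h C
    rw [domNum_le_iff]
    obtain ⟨u, hu⟩ := C.exists_rep
    obtain ⟨Z, hZ1, hZ2, hZ3⟩ := h u.1 (mem_rem.2 ⟨u.1.2, u.2⟩)
    refine ⟨Finset.univ.filter (fun c => ((c.1.1 : Fin M.length) : ℕ) ∈ Z), ?_, ?_⟩
    · refine le_trans ?_ hZ1
      refine Finset.card_le_card_of_injOn (fun c => ((c.1.1 : Fin M.length) : ℕ)) ?_ ?_
      · intro c hc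
        exact (Finset.mem_filter.1 (Finset.mem_coe.1 hc)).2
      · intro a _ b _ hab
        exact Subtype.ext (Subtype.ext (Fin.ext hab))
    · intro v
      have hv : ((graphOf M).induce Sᶜ).connectedComponentMk v.1 = C := v.2
      have h1 : ((graphOf M).induce Sᶜ).Reachable u v.1 := by
        apply SimpleGraph.ConnectedComponent.exact
        rw [hv]
        exact hu
      have h2 : ((v.1.1 : Fin M.length) : ℕ) ∈ cmp (Aj false M) (rem S) u.1 :=
        mem_cmp.2 ⟨mem_rem.2 ⟨v.1.1.2, v.1.2⟩, reach_iff.1 h1⟩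
      obtain ⟨z, hz, h3⟩ := hZ3 _ h2
      rcases h3 with h3 | h3
      · left
        rw [Finset.mem_filter]
        exact ⟨Finset.mem_univ _, h3 ▸ hz⟩
      · right
        have hzc := hZ2 hz
        obtain ⟨hz1, hz2⟩ := mem_rem.1 (cmp_sub _ _ hzc)
        have h4 : ((graphOf M).induce Sᶜ).Reachable u ⟨⟨z, hz1⟩, hz2⟩ :=
          reach_iff.2 (mem_cmp.1 hzc).2
        have h5 : ((graphOf M).induce Sᶜ).connectedComponentMk ⟨⟨z, hz1⟩, hz2⟩ = C := by
          rw [← hu]
          exact (SimpleGraph.ConnectedComponent.sound h4).symm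
        refine ⟨⟨⟨⟨z, hz1⟩, hz2⟩, h5⟩, Finset.mem_filter.2 ⟨Finset.mem_univ _, hz⟩, ?_⟩
        show (graphOf M).Adj ⟨z, hz1⟩ v.1.1
        exact adj_iff.2 h3

theorem card_rem (S : Set (Fin M.length)) :
    (Finset.range M.length \ rem S).card = S.ncard := by
  rw [Set.ncard_eq_toFinset_card', ← Finset.card_map Fin.valEmbedding]
  congr 1
  ext x
  rw [Finset.mem_sdiff, Finset.mem_range, mem_rem, Finset.mem_map]
  constructor
  · rintro ⟨h1, h2⟩
    push Not at h2
    exact ⟨⟨x, h1⟩, Set.mem_toFinset.2 (h2 h1), rfl⟩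
  · rintro ⟨v, hv, rfl⟩
    exact ⟨v.2, fun ⟨_, h⟩ => h (Set.mem_toFinset.1 hv)⟩

theorem sol_iff {d k : ℕ} (S : Set (Fin M.length)) : IsSolution d (M, k) S ↔
    (Finset.range M.length \ rem S).card ≤ k ∧ Ok (Aj false M) d (rem S) := by
  rw [card_rem, ← bridge]
  rfl

theorem rem_surj {R : Finset ℕ} (hR : R ⊆ Finset.range M.length) :
    rem (M := M) {v | (v : ℕ) ∉ R} = R := by
  ext x
  rw [mem_rem]
  constructor
  · rintro ⟨h, h1⟩
    simpa using h1
  · intro h
    exact ⟨Finset.mem_range.1 (hR h), by simpa using h⟩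

theorem yes_iff {d k : ℕ} : SmallDominatorClusters d (M, k) ↔
    Yes (Aj false M) d k (Finset.range M.length) (Finset.range M.length) := by
  constructor
  · rintro ⟨S, hS⟩
    have h := (sol_iff S).1 hS
    refine ⟨rem S, fun x hx => Finset.mem_range.2 (mem_rem.1 hx).1, h⟩
  · rintro ⟨R, hR, h⟩
    refine ⟨{v | (v : ℕ) ∉ R}, (sol_iff _).2 ?_⟩
    rw [rem_surj hR]
    exact h

theorem rem_setOf {k : ℕ} (l : List Bool) : rem (M := M) (setOf (M, k) l) = AV M l := by
  ext x
  rw [mem_rem, mem_AV]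
  constructor
  · rintro ⟨h, h1⟩
    refine ⟨h, ?_⟩
    cases h2 : l.getD x false
    · rfl
    · exact absurd h2 h1
  · rintro ⟨h, h1⟩
    refine ⟨h, fun h2 => ?_⟩
    have h3 : l.getD x false = true := h2
    rw [h1] at h3
    exact Bool.false_ne_true h3

open Pool.Agent.NPC Pool.Agent.NPC.DC

theorem bt_le (d k : ℕ) : bt d k ^ (k + 1) ≤ capb d k := Pool.Agent.NPC.H633.le_pw _ _

/-- For every fixed `d ≥ 1` the problem is fixed-parameter tractable with respect to `k`, and a
solution can be computed within the same time. -/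
theorem main (d : ℕ) (hd : 1 ≤ d) :
    ∃ f : List (List Bool) × ℕ → Bool × List Bool, FptTime (fun x => x.2) f ∧
      ∀ x, ((f x).1 = true ↔ SmallDominatorClusters d x) ∧
        (SmallDominatorClusters d x → IsSolution d x (setOf x (f x).2)) := by
  have hiff : ∀ x : List (List Bool) × ℕ, (alg d x.1 x.2 (capb d x.2)).1 = true ↔
      SmallDominatorClusters d x := by
    rintro ⟨M, k⟩
    rw [yes_iff]
    constructor
    · intro h
      obtain ⟨h1, h2⟩ := alg_sound hd h
      exact ⟨_, AV_sub _, h2, h1⟩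
    · exact alg_complete hd (bt_le d k)
  refine ⟨fun x => alg d x.1 x.2 (capb d x.2), fpt_alg d, fun x => ⟨hiff x, ?_⟩⟩
  intro hx
  obtain ⟨M, k⟩ := x
  obtain ⟨h1, h2⟩ := alg_sound hd ((hiff (M, k)).2 hx)
  rw [sol_iff, rem_setOf]
  exact ⟨h2, h1⟩

end Pool.Agent.T2h18.DC
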