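import Pool.Agent.T2h18.DC.Core
import Pool.Agent.T2h18.DC.Alg

set_option autoImplicit false

/-!
# The algorithm is correct
-/

namespace Pool.Agent.T2h18.DC

open Pool.Agent.H633R2.Ctr (adj bal grow tuples Aj Aj_iff Aj_symm mem_tuples nodup_bal)

open Classical

variable {M : List (List Bool)}

/-- The vertices which are not deleted. -/
def AV (M : List (List Bool)) (S : List Bool) : Finset ℕ := (av M S).toFinset

theorem nodup_av (S : List Bool) : (av M S).Nodup := List.nodup_range.filter _

theorem mem_av {S : List Bool} {x : ℕ} :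
    x ∈ av M S ↔ x < M.length ∧ S.getD x false = false := by
  unfold av
  rw [List.mem_filter, List.mem_range, Bool.not_eq_true']

theorem mem_AV {S : List Bool} {x : ℕ} :
    x ∈ AV M S ↔ x < M.length ∧ S.getD x false = false := by
  unfold AV
  rw [List.mem_toFinset, mem_av]

theorem AV_sub (S : List Bool) : AV M S ⊆ Finset.range M.length := fun x hx =>
  Finset.mem_range.2 (mem_AV.1 hx).1

theorem mem_bal' {R : List ℕ} {r : ℕ} (hr : r ∈ R) {j : ℕ} {x : ℕ} :
    x ∈ bal false M R j [r] ↔ x ∈ bl (Aj false M) R.toFinset r j := by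
  induction j generalizing x with
  | zero =>
    simp only [bal, Function.iterate_zero, id_eq, List.mem_filter, decide_eq_true_eq,
      List.mem_singleton, bl, Set.mem_singleton_iff]
    constructor
    · exact fun h => h.2
    · rintro rfl
      exact ⟨hr, rfl⟩
  | succ j ih =>
    have e : bal false M R (j + 1) [r] = grow false M R (bal false M R j [r]) := by
      unfold bal
      rw [Function.iterate_succ_apply']
    rw [e]
    unfold grow
    rw [List.mem_filter, Bool.or_eq_true, decide_eq_true_eq, List.any_eq_true]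
    constructor
    · rintro ⟨hx, h | ⟨y, hy, hyx⟩⟩
      · exact ⟨List.mem_toFinset.2 hx, x, ih.1 h, Or.inl rfl⟩
      · exact ⟨List.mem_toFinset.2 hx, y, ih.1 hy, Or.inr hyx⟩
    · rintro ⟨hx, y, hy, h⟩
      refine ⟨List.mem_toFinset.1 hx, ?_⟩
      rcases h with rfl | h
      · exact Or.inl (ih.2 hy)
      · exact Or.inr ⟨y, ih.2 hy, h⟩

/-- The balls stop growing. -/
theorem bl_card {A : ℕ → ℕ → Prop} {R : Finset ℕ} {r : ℕ} (hr : r ∈ R) {n : ℕ}
    (hn : R.card ≤ n) {x : ℕ} (hx : x ∈ cmp A R r) : x ∈ bl A R r n := by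
  by_contra hcon
  have hne : ∀ j ≤ n, ¬ bl A R r (j + 1) ⊆ bl A R r j := fun j hj h =>
    hcon (bl_mono hr hj (bl_stop hr h hx))
  have hc : ∀ j ≤ n + 1, j + 1 ≤ (R.filter (fun y => y ∈ bl A R r j)).card := by
    intro j
    induction j with
    | zero =>
      intro _
      exact Finset.card_pos.2 ⟨r, Finset.mem_filter.2 ⟨hr, rfl⟩⟩
    | succ j ih =>
      intro hj
      have h1 := ih (by omega)
      obtain ⟨y, hy, hy'⟩ := Set.not_subset.1 (hne j (by omega))
      have h2 : (R.filter (fun y => y ∈ bl A R r j)) ⊂ (R.filter (fun y => y ∈ bl A R r (j + 1))) := by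
        rw [Finset.ssubset_iff_of_subset]
        · exact ⟨y, Finset.mem_filter.2 ⟨hy.1, hy⟩, fun h => hy' (Finset.mem_filter.1 h).2⟩
        · intro z hz
          rw [Finset.mem_filter] at hz ⊢
          exact ⟨hz.1, bl_mono hr (Nat.le_succ _) hz.2⟩
      have := Finset.card_lt_card h2
      omega
  have h1 := hc (n + 1) le_rfl
  have h2 := Finset.card_filter_le R (fun y => y ∈ bl A R r (n + 1))
  omega

theorem mem_co {S : List Bool} {r : ℕ} (hr : r ∈ av M S) {x : ℕ} :
    x ∈ co M (av M S) r ↔ x ∈ cmp (Aj false M) (AV M S) r := by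
  unfold co
  rw [mem_bal' hr]
  constructor
  · exact bl_cmp (List.mem_toFinset.2 hr) _
  · refine bl_card (List.mem_toFinset.2 hr) ?_
    calc (av M S).toFinset.card ≤ (Finset.range M.length).card := Finset.card_le_card (AV_sub S)
      _ = M.length := Finset.card_range _

theorem nodup_co (S : List Bool) (r : ℕ) : (co M (av M S) r).Nodup :=
  nodup_bal (nodup_av S) _ _

theorem co_fin {S : List Bool} {r : ℕ} (hr : r ∈ av M S) :
    (co M (av M S) r).toFinset = cmp (Aj false M) (AV M S) r := by
  ext x
  rw [List.mem_toFinset, mem_co hr]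

theorem dmb_iff {Z : List ℕ} {y : ℕ} : dmb M Z y = true ↔ Dm (Aj false M) Z.toFinset y := by
  unfold dmb Dm
  rw [List.any_eq_true]
  constructor
  · rintro ⟨z, hz, h⟩
    rw [Bool.or_eq_true, decide_eq_true_eq] at h
    exact ⟨z, List.mem_toFinset.2 hz, h⟩
  · rintro ⟨z, hz, h⟩
    refine ⟨z, List.mem_toFinset.1 hz, ?_⟩
    rw [Bool.or_eq_true, decide_eq_true_eq]
    exact h

theorem nd_eq {S : List Bool} {r : ℕ} (hr : r ∈ av M S) (Z : List ℕ) :
    nd M (co M (av M S) r) Z =
      ((cmp (Aj false M) (AV M S) r).filter (fun y => Dm (Aj false M) Z.toFinset y)).card := by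
  unfold nd
  rw [← List.toFinset_card_of_nodup ((nodup_co S r).filter _)]
  congr 1
  ext y
  rw [List.mem_toFinset, List.mem_filter, mem_co hr, dmb_iff, Finset.mem_filter]

theorem mem_unr {d : ℕ} {S : List Bool} {r : ℕ} (hr : r ∈ av M S) {x : ℕ} :
    x ∈ unr d M (av M S) r ↔ x ∈ (cmp (Aj false M) (AV M S) r).filter
      (fun y => ¬ Dm (Aj false M) (bz d M (co M (av M S) r)).toFinset y) := by
  unfold unr un
  rw [List.mem_filter, mem_co hr, Finset.mem_filter, ← dmb_iff, Bool.not_eq_true',
    Bool.not_eq_true]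

/-- A list with repetitions. -/
theorem exists_tuple {d : ℕ} {H : List ℕ} {Z : Finset ℕ} (hne : Z.Nonempty)
    (hc : Z.card ≤ d) (hZ : ∀ z ∈ Z, z ∈ H) : ∃ t ∈ tuples d H, t.toFinset = Z := by
  obtain ⟨z, hz⟩ := hne
  refine ⟨Z.toList ++ List.replicate (d - Z.card) z, mem_tuples.2 ⟨?_, ?_⟩, ?_⟩
  · rw [List.length_append, Finset.length_toList, List.length_replicate]
    omega
  · intro x hx
    rw [List.mem_append, Finset.mem_toList, List.mem_replicate] at hx
    rcases hx with h | h
    · exact hZ x h
    · exact h.2 ▸ hZ z hz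
  · ext x
    rw [List.mem_toFinset, List.mem_append, Finset.mem_toList, List.mem_replicate]
    constructor
    · rintro (h | h)
      · exact h
      · exact h.2 ▸ hz
    · exact Or.inl

theorem bz_spec {d : ℕ} (hd : 1 ≤ d) {S : List Bool} {r : ℕ} (hr : r ∈ av M S) :
    bz d M (co M (av M S) r) ∈ tuples d (co M (av M S) r) ∧
      ∀ Z ∈ tuples d (co M (av M S) r), nd M (co M (av M S) r) Z ≤
        nd M (co M (av M S) r) (bz d M (co M (av M S) r)) := by
  set H := co M (av M S) r with hH
  have hrH : r ∈ H := (mem_co hr).2 (self_cmp (List.mem_toFinset.2 hr))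
  obtain ⟨t, ht, -⟩ := exists_tuple (d := d) (H := H) (Z := {r}) ⟨r, by simp⟩
    (by rw [Finset.card_singleton]; exact hd) (by
      intro z hz
      rw [Finset.mem_singleton] at hz
      exact hz ▸ hrH)
  obtain ⟨Z, hZ, hmax⟩ := Finset.exists_max_image (tuples d H).toFinset (fun Z => nd M H Z)
    ⟨t, List.mem_toFinset.2 ht⟩
  set F := (tuples d H).filter (fun Z => (tuples d H).all (fun Z' =>
    decide (nd M H Z' ≤ nd M H Z))) with hF
  have hZF : Z ∈ F := by
    rw [hF, List.mem_filter, List.all_eq_true]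
    exact ⟨List.mem_toFinset.1 hZ, fun Z' hZ' =>
      decide_eq_true (hmax Z' (List.mem_toFinset.2 hZ'))⟩
  have hpos : 0 < F.length := List.length_pos_of_mem hZF
  have hb : bz d M H ∈ F := by
    unfold bz
    rw [← hF, List.getD_eq_getElem _ _ hpos]
    exact List.getElem_mem _
  rw [hF, List.mem_filter, List.all_eq_true] at hb
  exact ⟨hb.1, fun Z hZ => of_decide_eq_true (hb.2 Z hZ)⟩

theorem isW_iff {m : ℕ} {R : List ℕ} {r x : ℕ} {t : List ℕ} : isW m M R r x t = true ↔
    t.getD 0 0 = r ∧ t.getD m 0 = x ∧ ∀ i < m, t.getD (i + 1) 0 ∈ R ∧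
      (t.getD (i + 1) 0 = t.getD i 0 ∨ Aj false M (t.getD i 0) (t.getD (i + 1) 0)) := by
  unfold isW
  simp only [Bool.and_eq_true, decide_eq_true_eq, List.all_eq_true, List.mem_range,
    Bool.or_eq_true]
  rfl

/-- Walks to the points of the balls. -/
theorem exists_walk {A : ℕ → ℕ → Prop} {R : Finset ℕ} {r : ℕ} (m : ℕ) {x : ℕ}
    (hx : x ∈ bl A R r m) : ∃ t : ℕ → ℕ, IsW A R r m t ∧ t m = x := by
  induction m generalizing x with
  | zero =>
    rw [bl, Set.mem_singleton_iff] at hx
    exact ⟨fun _ => r, ⟨rfl, fun i hi => absurd hi (Nat.not_lt_zero _)⟩, hx.symm⟩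
  | succ m ih =>
    obtain ⟨hxR, y, hy, h⟩ := hx
    obtain ⟨t, ⟨h1, h2⟩, h3⟩ := ih hy
    refine ⟨fun i => if i ≤ m then t i else x, ⟨?_, ?_⟩, ?_⟩
    · simp only [Nat.zero_le, if_true]
      exact h1
    · intro i hi
      by_cases him : i + 1 ≤ m
      · simp only [him, if_true, (by omega : i ≤ m)]
        exact h2 i (by omega)
      · have hi' : i = m := by omega
        subst hi'
        simp only [him, if_false, le_refl, if_true]
        rw [h3]
        exact ⟨hxR, h⟩
    · simp

theorem wk_spec {m : ℕ} {R : List ℕ} {r x : ℕ} (hr : r ∈ R)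
    (hx : x ∈ bl (Aj false M) R.toFinset r m) :
    IsW (Aj false M) R.toFinset r m (fun i => (wk m M R r x).getD i 0) ∧
      (wk m M R r x).getD m 0 = x ∧ ∀ i ≤ m, (wk m M R r x).getD i 0 ∈ wk m M R r x := by
  obtain ⟨t, ⟨h1, h2⟩, h3⟩ := exists_walk m hx
  set F := (tuples (m + 1) R).filter (fun t => isW m M R r x t) with hF
  have hg : ∀ i ≤ m, ((List.range (m + 1)).map t).getD i 0 = t i := by
    intro i hi
    rw [List.getD_eq_getElem _ _ (by simp; omega)]
    simp
  have htF : (List.range (m + 1)).map t ∈ F := by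
    rw [hF, List.mem_filter, mem_tuples, isW_iff]
    refine ⟨⟨by simp, ?_⟩, ?_, ?_, ?_⟩
    · intro y hy
      rw [List.mem_map] at hy
      obtain ⟨i, hi, rfl⟩ := hy
      rw [List.mem_range] at hi
      cases i with
      | zero => rw [h1]; exact hr
      | succ i => exact List.mem_toFinset.1 (h2 i (by omega)).1
    · rw [hg 0 (Nat.zero_le _), h1]
    · rw [hg m le_rfl, h3]
    · intro i hi
      rw [hg i (by omega), hg (i + 1) (by omega)]
      exact ⟨List.mem_toFinset.1 (h2 i hi).1, (h2 i hi).2⟩
  have hpos : 0 < F.length := List.length_pos_of_mem htF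
  have hb : wk m M R r x ∈ F := by
    unfold wk
    rw [← hF, List.getD_eq_getElem _ _ hpos]
    exact List.getElem_mem _
  rw [hF, List.mem_filter, mem_tuples, isW_iff] at hb
  refine ⟨⟨hb.2.1, fun i hi => ⟨List.mem_toFinset.2 (hb.2.2.2 i hi).1, (hb.2.2.2 i hi).2⟩⟩,
    hb.2.2.1, fun i hi => ?_⟩
  rw [List.getD_eq_getElem _ _ (by rw [hb.1.1]; omega)]
  exact List.getElem_mem _

theorem wk_sub {m : ℕ} {R : List ℕ} {r x y : ℕ} (hy : y ∈ wk m M R r x) : y ∈ R := by
  unfold wk at hy
  set F := (tuples (m + 1) R).filter (fun t => isW m M R r x t) with hF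
  by_cases hpos : 0 < F.length
  · rw [List.getD_eq_getElem _ _ hpos] at hy
    have hb := (List.mem_filter.1 (List.getElem_mem hpos)).1
    exact (mem_tuples.1 hb).2 y hy
  · have h0 : F = [] := List.length_eq_zero_iff.1 (by omega)
    rw [h0] at hy
    simp at hy

theorem wk_length (m : ℕ) (R : List ℕ) (r x : ℕ) : (wk m M R r x).length ≤ m + 1 := by
  unfold wk
  set F := (tuples (m + 1) R).filter (fun t => isW m M R r x t) with hF
  by_cases hpos : 0 < F.length
  · rw [List.getD_eq_getElem _ _ hpos]
    have hb := (List.mem_filter.1 (List.getElem_mem hpos)).1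
    exact (mem_tuples.1 hb).1.le
  · have h0 : F = [] := List.length_eq_zero_iff.1 (by omega)
    rw [h0]
    simp

theorem brl_sub {d k : ℕ} {R : List ℕ} {r : ℕ} (hr : r ∈ R) {b : ℕ} (hb : b ∈ brl d M R k r) :
    b ∈ R := by
  unfold brl at hb
  rw [List.mem_cons, List.mem_flatMap] at hb
  rcases hb with rfl | ⟨x, _, hb⟩
  · exact hr
  · exact wk_sub hb

theorem AV_mk (S : List Bool) (L : List ℕ) : AV M (mk M S L) = AV M S \ L.toFinset := by
  ext x
  rw [Finset.mem_sdiff, mem_AV, mem_AV, List.mem_toFinset]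
  have h : ∀ x < M.length, (mk M S L).getD x false = (S.getD x false || decide (x ∈ L)) := by
    intro x hx
    rw [List.getD_eq_getElem _ _ (by unfold mk; simpa using hx)]
    unfold mk
    simp
  constructor
  · rintro ⟨hx, h1⟩
    rw [h x hx, Bool.or_eq_false_iff, decide_eq_false_iff_not] at h1
    exact ⟨⟨hx, h1.1⟩, h1.2⟩
  · rintro ⟨⟨hx, h1⟩, h2⟩
    refine ⟨hx, ?_⟩
    rw [h x hx, Bool.or_eq_false_iff, decide_eq_false_iff_not]
    exact ⟨h1, h2⟩

theorem cnt_eq (S : List Bool) : cnt M S = (Finset.range M.length \ AV M S).card := by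
  unfold cnt
  rw [← List.toFinset_card_of_nodup (List.nodup_range.filter _)]
  congr 1
  ext x
  rw [List.mem_toFinset, List.mem_filter, List.mem_range, Finset.mem_sdiff, mem_AV,
    Finset.mem_range]
  cases S.getD x false <;> simp

theorem mem_bad {d : ℕ} {S : List Bool} {r : ℕ} :
    r ∈ bad d M S ↔ r ∈ av M S ∧ 0 < (unr d M (av M S) r).length := by
  unfold bad
  rw [List.mem_filter, decide_eq_true_eq]

/-- Without bad components all components have small domination number. -/
theorem ok_of_bad {d : ℕ} (hd : 1 ≤ d) {S : List Bool} (h : (bad d M S).length = 0) :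
    Ok (Aj false M) d (AV M S) := by
  intro r hr
  have hr' : r ∈ av M S := List.mem_toFinset.1 hr
  have h0 : (unr d M (av M S) r).length = 0 := by
    by_contra hcon
    have : r ∈ bad d M S := mem_bad.2 ⟨hr', by omega⟩
    rw [List.length_eq_zero_iff.1 h] at this
    exact List.not_mem_nil this
  have hb := (bz_spec hd hr').1
  rw [mem_tuples] at hb
  refine ⟨(bz d M (co M (av M S) r)).toFinset, (List.toFinset_card_le _).trans hb.1.le, ?_, ?_⟩
  · intro z hz
    exact (mem_co hr').1 (hb.2 z (List.mem_toFinset.1 hz))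
  · intro y hy
    by_contra hcon
    have : y ∈ unr d M (av M S) r := (mem_unr hr').2 (Finset.mem_filter.2 ⟨hy, hcon⟩)
    rw [List.length_eq_zero_iff.1 h0] at this
    exact List.not_mem_nil this

/-- One step of the algorithm. -/
theorem nst_spec {d k : ℕ} (hd : 1 ≤ d) {S : List Bool}
    (hy : Yes (Aj false M) d k (Finset.range M.length) (AV M S)) :
    ∃ S' ∈ nst d M k S, Yes (Aj false M) d k (Finset.range M.length) (AV M S') ∧
      ((bad d M S').length = 0 ∨ cnt M S + 1 ≤ cnt M S') := by
  unfold nst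
  by_cases h0 : (bad d M S).length = 0
  · rw [decide_eq_true h0, cond_true]
    exact ⟨S, List.mem_singleton.2 rfl, hy, Or.inl h0⟩
  rw [decide_eq_false h0, cond_false]
  set r := (bad d M S).getD 0 0 with hrdef
  have hr : r ∈ bad d M S := by
    rw [hrdef, List.getD_eq_getElem _ _ (by omega)]
    exact List.getElem_mem _
  obtain ⟨hr, hlen⟩ := mem_bad.1 hr
  have hrf : r ∈ AV M S := List.mem_toFinset.2 hr
  set H := co M (av M S) r with hH
  obtain ⟨hb1, hb2⟩ := bz_spec hd hr
  rw [mem_tuples] at hb1
  set Zs := (bz d M H).toFinset with hZs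
  set U' := ((unr d M (av M S) r).take (k + 1)).toFinset with hU'
  set B := (brl d M (av M S) k r).toFinset with hB
  have hnodup : (unr d M (av M S) r).Nodup := (nodup_co S r).filter _
  have key := branch (k := k) Aj_symm hd (AV_sub S) hrf (Zs := Zs) (U' := U') (B := B)
    ((List.toFinset_card_le _).trans hb1.1.le)
    (fun z hz => (mem_co hr).1 (hb1.2 z (List.mem_toFinset.1 hz)))
    (by
      intro Z hZc hZH
      by_cases hne : Z.Nonempty
      · obtain ⟨t, ht, hte⟩ := exists_tuple (H := H) hne hZc (fun z hz => (mem_co hr).2 (hZH hz))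
        have := hb2 t ht
        rw [nd_eq hr, nd_eq hr, hte] at this
        exact this
      · rw [Finset.not_nonempty_iff_eq_empty] at hne
        subst hne
        have : (cmp (Aj false M) (AV M S) r).filter (fun y => Dm (Aj false M) ∅ y) = ∅ := by
          ext y
          simp [Dm]
        rw [this]
        simp)
    (by
      intro u hu
      exact (mem_unr hr).1 (List.mem_of_mem_take (List.mem_toFinset.1 hu)))
    (by
      by_cases hl : (unr d M (av M S) r).length ≤ k + 1
      · left
        intro u hu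
        rw [hU', List.mem_toFinset, List.take_of_length_le hl]
        exact (mem_unr hr).2 hu
      · right
        rw [hU', List.toFinset_card_of_nodup (hnodup.sublist (List.take_sublist _ _)),
          List.length_take]
        omega)
    (by
      intro x hx hxb
      obtain ⟨h1, h2, h3⟩ := wk_spec (M := M) hr hxb
      refine ⟨_, h1, h2, fun i hi => ?_⟩
      rw [hB, List.mem_toFinset]
      unfold brl
      rw [List.mem_cons, List.mem_flatMap]
      refine Or.inr ⟨x, ?_, h3 i hi⟩
      unfold tg
      rw [List.mem_append, List.mem_append]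
      rcases Finset.mem_union.1 hx with h | h
      · exact Or.inl (List.mem_toFinset.1 h)
      · exact Or.inr (Or.inl (List.mem_toFinset.1 h)))
    (by
      rintro ⟨x, hx1, hx2⟩
      have hxf : x ∈ far d M (av M S) r := by
        unfold far
        rw [List.mem_filter, Bool.not_eq_true', decide_eq_false_iff_not, mem_bal' hr,
          mem_bal' hr]
        exact ⟨hx1, hx2⟩
      have hpos : 0 < (far d M (av M S) r).length := List.length_pos_of_mem hxf
      set y := (far d M (av M S) r)[0] with hy
      have hyf : y ∈ far d M (av M S) r := List.getElem_mem _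
      have hyt : y ∈ (far d M (av M S) r).take 1 := by
        rw [List.mem_take_iff_getElem]
        exact ⟨0, by omega, rfl⟩
      unfold far at hyf
      rw [List.mem_filter, Bool.not_eq_true', decide_eq_false_iff_not, mem_bal' hr,
        mem_bal' hr] at hyf
      obtain ⟨h1, h2, h3⟩ := wk_spec (M := M) hr hyf.1
      refine ⟨_, h1, ?_, fun i hi => ?_⟩
      · rw [h2]
        exact hyf.2
      · rw [hB, List.mem_toFinset]
        unfold brl
        rw [List.mem_cons, List.mem_flatMap]
        refine Or.inr ⟨y, ?_, h3 i hi⟩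
        unfold tg
        rw [List.mem_append, List.mem_append]
        exact Or.inr (Or.inr hyt))
    (by
      rw [hB, List.mem_toFinset]
      unfold brl
      exact List.mem_cons_self)
    hy
  have hlt : ∀ T : Finset ℕ, T ⊆ AV M S → T.Nonempty →
      (Finset.range M.length \ AV M S).card + 1 ≤
        (Finset.range M.length \ (AV M S \ T)).card := by
    intro T hT ⟨x, hx⟩
    have : Finset.range M.length \ AV M S ⊂ Finset.range M.length \ (AV M S \ T) := by
      rw [Finset.ssubset_iff_of_subset (Finset.sdiff_subset_sdiff le_rfl Finset.sdiff_subset)]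
      refine ⟨x, ?_, ?_⟩
      · rw [Finset.mem_sdiff, Finset.mem_sdiff]
        exact ⟨AV_sub S (hT hx), fun h => h.2 hx⟩
      · rw [Finset.mem_sdiff]
        exact fun h => h.2 (hT hx)
    exact Finset.card_lt_card this
  rcases key with h | ⟨b, hb, h⟩
  · refine ⟨_, List.mem_cons_self, ?_, Or.inr ?_⟩
    · rw [AV_mk]
      convert h using 2
      ext x
      rw [List.mem_toFinset, mem_unr hr]
    · rw [cnt_eq, cnt_eq, AV_mk]
      refine hlt _ ?_ ?_
      · intro x hx
        exact cmp_sub _ _ (Finset.mem_filter.1 ((mem_unr hr).1 (List.mem_toFinset.1 hx))).1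
      · exact ⟨(unr d M (av M S) r)[0], List.mem_toFinset.2 (List.getElem_mem _)⟩
  · rw [hB, List.mem_toFinset] at hb
    refine ⟨mk M S [b], List.mem_cons_of_mem _ (List.mem_map.2 ⟨b, hb, rfl⟩), ?_, Or.inr ?_⟩
    · rw [AV_mk]
      convert h using 1
      ext x
      simp [Finset.mem_erase, and_comm]
    · rw [cnt_eq, cnt_eq, AV_mk]
      refine hlt _ ?_ ?_
      · intro x hx
        rw [List.mem_toFinset, List.mem_singleton] at hx
        subst hx
        exact List.mem_toFinset.2 (brl_sub hr hb)
      · exact ⟨b, by simp⟩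

end Pool.Agent.T2h18.DC
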